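import Pool.Agent.W2helper81.IW.Defs

/-!
# Piece HOM: class groups and homomorphisms
-/

set_option autoImplicit false

namespace Pool.Agent.W2helper17.IW

open IntermediateField Module Subgroup Pool.Agent.Q60.MU Pool.Agent.W5h77.MB
open Pool.Agent.W2helper81.IW
open scoped Pointwise commutatorElement

theorem card_dual {p : ℕ} [Fact p.Prime] (V : Type) [AddCommGroup V] [Module (ZMod p) V]
    [Module.Finite (ZMod p) V] : Nat.card (V →ₗ[ZMod p] ZMod p) = Nat.card V := by
  rw [Module.natCard_eq_pow_finrank (K := ZMod p) (V := V),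
    Module.natCard_eq_pow_finrank (K := ZMod p) (V := V →ₗ[ZMod p] ZMod p)]
  congr 1
  exact Subspace.dual_finrank_eq

/-- the quotient of `Gal(Qb/E)` by an open subgroup containing the generators -/
theorem exists_quot {p : ℕ} [Fact p.Prime] {K W : Subgroup Gal(Qb/ℚ)} (hWK : W ≤ K)
    (hWf : W.relIndex K ≠ 0) (hg : gens p inertia K ⊆ W) :
    ∃ (V : Type) (_ : AddCommGroup V) (_ : Module (ZMod p) V) (_ : Module.Finite (ZMod p) V)
      (π : K → V), Function.Surjective π ∧ (∀ x y, π (x * y) = π x + π y) ∧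
      (∀ x, π x = 0 ↔ (x : Gal(Qb/ℚ)) ∈ W) ∧ Nat.card V = W.relIndex K := by
  obtain ⟨V, i1, i2, i3, -, π, h1, h2, h3, -⟩ := exists_rep (p := p) (I := inertia) (K := K)
    (D := K) (W := W) le_rfl (fun d hd x hx => K.mul_mem (K.mul_mem hd hx) (K.inv_mem hd)) hWf hg
    (by
      intro d hd x hx
      have h1 : ⁅d, x⁆ ∈ W := hg (Or.inl (Or.inr ⟨d, hd, x, hWK hx, rfl⟩))
      have h2 : d * x * d⁻¹ = ⁅d, x⁆ * x := by
        rw [commutatorElement_def]
        group
      rw [h2]
      exact W.mul_mem h1 hx)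
  refine ⟨V, i1, i2, i3, π, h1, h2, h3, ?_⟩
  let f : K →* Multiplicative V := MonoidHom.mk' (fun x => Multiplicative.ofAdd (π x))
    fun x y => by rw [h2]; rfl
  have hker : f.ker = W.subgroupOf K := by
    ext x
    rw [MonoidHom.mem_ker, mem_subgroupOf]
    exact h3 x
  have hsurj : f.range = ⊤ := by
    rw [MonoidHom.range_eq_top]
    intro v
    obtain ⟨x, hx⟩ := h1 (Multiplicative.toAdd v)
    exact ⟨x, by change Multiplicative.ofAdd (π x) = v; rw [hx]; rfl⟩
  have h4 := index_ker f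
  rw [hker, hsurj, card_top] at h4
  exact h4.symm

theorem le_of_atMost {p : ℕ} [Fact p.Prime] (E : IntermediateField ℚ Qb) (C : ℕ)
    (h : AtMost (Hom p E) C) : RankLe p inertia E.fixingSubgroup C := by
  intro W hWK hWo hWf hg
  obtain ⟨V, i1, i2, i3, π, h1, h2, h3, h4⟩ := exists_quot hWK hWf hg
  rw [← h4, ← card_dual (p := p) V]
  let Φ : (V →ₗ[ZMod p] ZMod p) → Hom p E := fun φ => ⟨fun x => φ (π x), by
    refine ⟨fun x y => ?_, ⟨W, hWo, fun g hg' => ?_⟩, fun A g hgA => ?_⟩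
    · show φ (π (x * y)) = φ (π x) + φ (π y)
      rw [h2, map_add]
    · show φ (π g) = 0
      rw [(h3 g).2 hg', map_zero]
    · show φ (π g) = 0
      rw [(h3 g).2 (hg (Or.inr ⟨g.2, A, hgA⟩)), map_zero]⟩
  have hΦ : Function.Injective Φ := by
    intro φ ψ hφ
    have h5 : ∀ x, φ (π x) = ψ (π x) := fun x => congrFun (congrArg Subtype.val hφ) x
    refine LinearMap.ext fun v => ?_
    obtain ⟨x, rfl⟩ := h1 v
    exact h5 x
  have hfin : Finite (Hom p E) := h.1.to_subtype
  exact (Nat.card_le_card_of_injective Φ hΦ).trans h.2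

theorem atMost_of_le {p : ℕ} [Fact p.Prime] (E : IntermediateField ℚ Qb) [FiniteDimensional ℚ E]
    (C : ℕ) (h : RankLe p inertia E.fixingSubgroup C) : AtMost (Hom p E) C := by
  classical
  -- every finite set of homomorphisms has at most `C` elements
  have key : ∀ F : Finset (E.fixingSubgroup → ZMod p), (F : Set _) ⊆ Hom p E → F.card ≤ C := by
    intro F hF
    have hadd : ∀ χ ∈ F, ∀ g h, χ (g * h) = χ g + χ h := fun χ hχ => (hF hχ).1
    have hone : ∀ χ ∈ F, χ 1 = 0 := by
      intro χ hχ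
      have := hadd χ hχ 1 1
      rw [mul_one] at this
      simpa using this
    have hinv : ∀ χ ∈ F, ∀ g, χ g⁻¹ = - χ g := by
      intro χ hχ g
      have := hadd χ hχ g⁻¹ g
      rw [inv_mul_cancel, hone χ hχ] at this
      exact eq_neg_of_add_eq_zero_left this.symm
    have hpow : ∀ χ ∈ F, ∀ g (n : ℕ), χ (g ^ n) = n • χ g := by
      intro χ hχ g n
      induction n with
      | zero => rw [pow_zero, hone χ hχ, zero_smul]
      | succ n ih => rw [pow_succ, hadd χ hχ, ih, succ_nsmul]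
    let L : Subgroup Gal(Qb/ℚ) :=
      { carrier := {g | ∃ hg : g ∈ E.fixingSubgroup, ∀ χ ∈ F, χ ⟨g, hg⟩ = 0}
        mul_mem' := by
          rintro a b ⟨ha, ha'⟩ ⟨hb, hb'⟩
          refine ⟨mul_mem ha hb, fun χ hχ => ?_⟩
          have := hadd χ hχ ⟨a, ha⟩ ⟨b, hb⟩
          rw [ha' χ hχ, hb' χ hχ, add_zero] at this
          exact this
        one_mem' := ⟨one_mem _, fun χ hχ => hone χ hχ⟩
        inv_mem' := by
          rintro a ⟨ha, ha'⟩
          refine ⟨inv_mem ha, fun χ hχ => ?_⟩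
          have := hinv χ hχ ⟨a, ha⟩
          rw [ha' χ hχ, neg_zero] at this
          exact this }
    have hLmem : ∀ g : E.fixingSubgroup, (g : Gal(Qb/ℚ)) ∈ L ↔ ∀ χ ∈ F, χ g = 0 := by
      intro g
      constructor
      · rintro ⟨_, h'⟩
        exact h'
      · intro h'
        exact ⟨g.2, h'⟩
    have hLK : L ≤ E.fixingSubgroup := by
      rintro g ⟨hg, -⟩
      exact hg
    have hLo : IsOpen (L : Set Gal(Qb/ℚ)) := by
      have hV : ∀ χ : F, ∃ V : Subgroup Gal(Qb/ℚ), IsOpen (V : Set Gal(Qb/ℚ)) ∧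
          ∀ g : E.fixingSubgroup, (g : Gal(Qb/ℚ)) ∈ V → χ.1 g = 0 := fun χ => (hF χ.2).2.1
      choose V hVo hV using hV
      have h1 : IsOpen ((E.fixingSubgroup ⊓ ⨅ χ : F, V χ : Subgroup Gal(Qb/ℚ)) :
          Set Gal(Qb/ℚ)) := by
        rw [Subgroup.coe_inf, Subgroup.coe_iInf]
        exact E.fixingSubgroup_isOpen.inter (isOpen_iInter_of_finite hVo)
      refine Subgroup.isOpen_mono ?_ h1
      rintro g ⟨hg1, hg2⟩
      refine ⟨hg1, fun χ hχ => ?_⟩
      exact hV ⟨χ, hχ⟩ ⟨g, hg1⟩ (mem_iInf.1 hg2 _)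
    have hLf : L.relIndex E.fixingSubgroup ≠ 0 := by
      have hfin : L.FiniteIndex := by
        have : Finite (Gal(Qb/ℚ) ⧸ L) := Subgroup.quotient_finite_of_isOpen L hLo
        exact Subgroup.finiteIndex_of_finite_quotient
      intro h0
      have := relIndex_mul_index hLK
      rw [h0, zero_mul] at this
      exact hfin.index_ne_zero this.symm
    have hLg : gens p inertia E.fixingSubgroup ⊆ L := by
      rintro x ((⟨a, ha, rfl⟩ | ⟨a, ha, b, hb, rfl⟩) | ⟨hx, A, hA⟩)
      · refine (hLmem (⟨a, ha⟩ ^ p : E.fixingSubgroup)).2 fun χ hχ => ?_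
        rw [hpow χ hχ, nsmul_eq_mul, CharP.cast_eq_zero, zero_mul]
      · refine (hLmem (⁅(⟨a, ha⟩ : E.fixingSubgroup), ⟨b, hb⟩⁆)).2 fun χ hχ => ?_
        rw [commutatorElement_def, hadd χ hχ, hadd χ hχ, hadd χ hχ, hinv χ hχ, hinv χ hχ]
        ring
      · refine (hLmem ⟨x, hx⟩).2 fun χ hχ => ?_
        exact (hF hχ).2.2 A ⟨x, hx⟩ hA
    have hC := h L hLK hLo hLf hLg
    obtain ⟨V, i1, i2, i3, π, h1, h2, h3, h4⟩ := exists_quot hLK hLf hLg
    rw [← h4, ← card_dual (p := p) V] at hC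
    -- the homomorphisms factor
    have hfac : ∀ χ : F, ∃ φ : V →ₗ[ZMod p] ZMod p, ∀ x, φ (π x) = χ.1 x := by
      intro χ
      have hwd : ∀ x y, π x = π y → χ.1 x = χ.1 y := by
        intro x y hxy
        have h5 : π (x * y⁻¹) = 0 := by
          have h6 := h2 (x * y⁻¹) y
          rw [inv_mul_cancel_right, hxy] at h6
          simpa using h6.symm
        have h7 := (hLmem _).1 ((h3 _).1 h5) χ.1 χ.2
        rw [hadd χ.1 χ.2, hinv χ.1 χ.2] at h7
        exact (sub_eq_zero.1 (by rw [sub_eq_add_neg]; exact h7))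
      choose r hr using h1
      let f : V →+ ZMod p := AddMonoidHom.mk' (fun v => χ.1 (r v)) (by
        intro a b
        rw [← hadd χ.1 χ.2]
        apply hwd
        rw [h2, hr, hr, hr])
      refine ⟨f.toZModLinearMap p, fun x => ?_⟩
      exact hwd _ _ (hr (π x))
    choose φ hφ using hfac
    have hinj : Function.Injective φ := by
      intro χ ψ h5
      apply Subtype.ext
      funext x
      rw [← hφ χ x, ← hφ ψ x, h5]
    have hfinV : Finite (V →ₗ[ZMod p] ZMod p) := by
      exact Module.finite_of_finite (ZMod p)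
    have h6 := Nat.card_le_card_of_injective φ hinj
    rw [Nat.card_eq_fintype_card, Fintype.card_coe] at h6
    exact h6.trans hC
  have hfin : (Hom p E).Finite := by
    by_contra hinf
    obtain ⟨t, ht1, ht2⟩ := Set.Infinite.exists_subset_card_eq hinf (C + 1)
    have := key t ht1
    omega
  refine ⟨hfin, ?_⟩
  rw [Set.ncard_eq_toFinset_card _ hfin]
  exact key _ (by simp)

theorem HOM_ok : P_HOM := by
  intro p hp E hE C
  have : Fact p.Prime := ⟨hp⟩
  rw [← rankLe_iff]
  exact ⟨atMost_of_le E C, le_of_atMost E C⟩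

end Pool.Agent.W2helper17.IW
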